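import Mathlib
import Pool.Agent.N685.FD.DG

/-!
# The integers which reach 1 under the `5x+1` map within `α log n` steps

Let `N(α, x)` be the number of the `n ≤ x` which reach `1` within `α log n` steps of the `5x+1` map. We
determine the growth exponent of `N(α, x)` for all slopes `α > 1 / log 2` (for `α < 1 / log 2` only
`n = 1` is counted, because `k` steps divide `n` by at most `2 ^ k`). It is `e(α) = 1 - α (log 2 - H(r))`, `r = (log 2 - 1/α) / log 5`,
for `α ≤ κ`, and the constant `η₅ = e(κ) = 0.6509...` with `2 ^ η₅ = 1 + 5 ^ (η₅ - 1)` for all `α ≥ κ`,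
`κ = 1 / (log 2 - (1 - 2 ^ (-η₅)) log 5)`.
-/

set_option autoImplicit false

namespace Pool.Agent.Results.MP_05966f_nt.ExponentWithinLogTime

open Filter Topology Pool.Agent.N685.FD Pool.Agent.N685.FD.Five

/-- the `5x+1` map -/
def T5 (n : ℤ) : ℤ := if n % 2 = 0 then n / 2 else (5 * n + 1) / 2

/-- the integers `1 ≤ n ≤ x` which reach `1`; their number is `N₅(x)` -/
def reach (x : ℝ) : Set ℤ := {n | 1 ≤ n ∧ (n : ℝ) ≤ x ∧ ∃ k : ℕ, T5^[k] n = 1}

/-- the integers `1 ≤ n ≤ x` which reach `1` within `g(n) log n` steps -/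
def within (g : ℝ → ℝ) (x : ℝ) : Set ℤ :=
  {n | 1 ≤ n ∧ (n : ℝ) ≤ x ∧ ∃ k : ℕ, T5^[k] n = 1 ∧ (k : ℝ) ≤ g n * Real.log n}

/-- the integers `1 ≤ n ≤ x` which reach `1`, but not within `α log n` steps -/
def slow (α x : ℝ) : Set ℤ :=
  {n | 1 ≤ n ∧ (n : ℝ) ≤ x ∧ (∃ k : ℕ, T5^[k] n = 1) ∧
    ∀ k : ℕ, T5^[k] n = 1 → α * Real.log n < k}

/-- the density `r(α) = (log 2 - 1/α) / log 5` of the odd steps -/
noncomputable def oddDensity (α : ℝ) : ℝ := (Real.log 2 - 1 / α) / Real.log 5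

/-- the exponent `e(α) = 1 - α (log 2 - H(r(α)))`, `H` the natural binary entropy -/
noncomputable def slopeExponent (α : ℝ) : ℝ :=
  1 - α * (Real.log 2 - Real.binEntropy (oddDensity α))

/-! ### Proofs -/

theorem T5_eq : T5 = T 5 1 := by
  funext n
  unfold T5 T
  norm_num

theorem neg_iter {n : ℤ} (hn : n < 0) (k : ℕ) : T5^[k] n < 0 := by
  induction k generalizing n with
  | zero => simpa using hn
  | succ k ih =>
    rw [Function.iterate_succ_apply]
    refine ih ?_
    unfold T5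
    split_ifs with h <;> omega

theorem ct_eq (α x : ℝ) : DG.Ct 5 1 {1} α x = within (fun _ => α) x := by
  ext n
  constructor
  · rintro ⟨h0, h1, k, hk1, hk2⟩
    rw [← T5_eq] at hk1
    have hn : 1 ≤ n := by
      by_contra hlt
      have hneg : n < 0 := by omega
      have h2 := neg_iter hneg k
      have h3 : T5^[k] n = 1 := hk1
      omega
    have hnr : (0 : ℝ) ≤ n := by exact_mod_cast (by omega : (0 : ℤ) ≤ n)
    rw [abs_of_nonneg hnr] at h1 hk2
    exact ⟨hn, h1, k, hk1, hk2⟩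
  · rintro ⟨h0, h1, k, hk1, hk2⟩
    have hnr : (0 : ℝ) ≤ n := by exact_mod_cast (by omega : (0 : ℤ) ≤ n)
    refine ⟨by omega, by rwa [abs_of_nonneg hnr], k, ?_, by rwa [abs_of_nonneg hnr]⟩
    rw [← T5_eq]
    exact hk1

theorem finite_le (x : ℝ) : {n : ℤ | 1 ≤ n ∧ (n : ℝ) ≤ x}.Finite := by
  refine (Set.finite_Icc (1 : ℤ) ⌊x⌋).subset ?_
  intro n hn
  exact ⟨hn.1, Int.le_floor.2 hn.2⟩

theorem finite_reach (x : ℝ) : (reach x).Finite :=
  (finite_le x).subset fun _ hn => ⟨hn.1, hn.2.1⟩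

theorem finite_within (g : ℝ → ℝ) (x : ℝ) : (within g x).Finite :=
  (finite_le x).subset fun _ hn => ⟨hn.1, hn.2.1⟩

theorem finite_slow (α x : ℝ) : (slow α x).Finite :=
  (finite_le x).subset fun _ hn => ⟨hn.1, hn.2.1⟩

theorem tendsto_of_pow {c : ℝ → ℕ} {e : ℝ}
    (h : ∀ ε : ℝ, 0 < ε → ∀ᶠ x : ℝ in atTop, x ^ (e - ε) ≤ (c x : ℝ) ∧ (c x : ℝ) ≤ x ^ (e + ε)) :
    Tendsto (fun x : ℝ => Real.log (c x) / Real.log x) atTop (𝓝 e) := by
  rw [Metric.tendsto_nhds]
  intro ε hε
  filter_upwards [h (ε / 2) (by positivity), eventually_gt_atTop (1 : ℝ)] with x hx hx1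
  have hlog : 0 < Real.log x := Real.log_pos hx1
  have hx0 : 0 < x := by linarith
  have hpos : 0 < x ^ (e - ε / 2) := Real.rpow_pos_of_pos hx0 _
  have h1 := Real.log_le_log hpos hx.1
  have h2 := Real.log_le_log (lt_of_lt_of_le hpos hx.1) hx.2
  rw [Real.log_rpow hx0] at h1 h2
  rw [Real.dist_eq, abs_lt]
  constructor
  · have : e - ε / 2 ≤ Real.log (c x) / Real.log x := by rwa [le_div_iff₀ hlog]
    linarith
  · have : Real.log (c x) / Real.log x ≤ e + ε / 2 := by rwa [div_le_iff₀ hlog]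
    linarith

theorem pow_of_tendsto {c : ℝ → ℕ} {e : ℝ}
    (h : Tendsto (fun x : ℝ => Real.log (c x) / Real.log x) atTop (𝓝 e)) {ε : ℝ} (hε : 0 < ε) :
    ∀ᶠ x : ℝ in atTop, (c x : ℝ) ≤ x ^ (e + ε) := by
  filter_upwards [h.eventually (gt_mem_nhds (show e < e + ε by linarith)),
    eventually_gt_atTop (1 : ℝ)] with x hx hx1
  have hlog : 0 < Real.log x := Real.log_pos hx1
  have hx0 : 0 < x := by linarith
  rcases Nat.eq_zero_or_pos (c x) with h0 | h0
  · rw [h0, Nat.cast_zero]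
    positivity
  · have hc : (0 : ℝ) < c x := by exact_mod_cast h0
    rw [div_lt_iff₀ hlog] at hx
    rw [← Real.log_le_log_iff hc (Real.rpow_pos_of_pos hx0 _), Real.log_rpow hx0]
    exact hx.le

theorem adm : Adm 5 1 := ⟨Or.inr rfl, by norm_num, by norm_num⟩

theorem good : DG.Good 5 {1} :=
  ⟨Set.finite_singleton 1, 1, rfl, by norm_num, by norm_num⟩

theorem high {η : ℝ} (h : IsEta η) {α : ℝ} (hk : kap η ≤ α) {ε : ℝ} (hε : 0 < ε) :
    ∀ᶠ x : ℝ in atTop, x ^ (η - ε) ≤ ((within (fun _ => α) x).ncard : ℝ) ∧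
      ((within (fun _ => α) x).ncard : ℝ) ≤ x ^ (η + ε) := by
  obtain ⟨X, _, hX⟩ := DG.count5_high adm good h hk hε
  filter_upwards [eventually_ge_atTop X] with x hx
  have := hX x hx
  rwa [ct_eq] at this

theorem exp_eq {α : ℝ} (h : 1 / Real.log 2 < α) : slopeExponent α = ex 5 α := by
  have hα : 0 < α := lt_trans (by positivity) h
  have h5 : 0 < Real.log 5 := Real.log_pos (by norm_num)
  unfold slopeExponent oddDensity ex Fp rp
  push_cast
  field_simp
  ring

theorem low {η : ℝ} (h : IsEta η) {α : ℝ} (h1 : 1 / Real.log 2 < α) (hk : α ≤ kap η) {ε : ℝ}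
    (hε : 0 < ε) :
    ∀ᶠ x : ℝ in atTop, x ^ (slopeExponent α - ε) ≤ ((within (fun _ => α) x).ncard : ℝ) ∧
      ((within (fun _ => α) x).ncard : ℝ) ≤ x ^ (slopeExponent α + ε) := by
  obtain ⟨X, _, hX⟩ := DG.count5_low adm good h h1 hk hε
  filter_upwards [eventually_ge_atTop X] with x hx
  have := hX x hx
  rwa [ct_eq, ← exp_eq h1] at this

theorem reach_subset (α x : ℝ) : reach x ⊆ within (fun _ => α) x ∪ slow α x := by
  rintro n ⟨h1, h2, h3⟩
  by_cases h : ∃ k : ℕ, T5^[k] n = 1 ∧ (k : ℝ) ≤ α * Real.log n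
  · exact Or.inl ⟨h1, h2, h⟩
  · refine Or.inr ⟨h1, h2, h3, fun k hk => ?_⟩
    by_contra h4
    exact h ⟨k, hk, not_lt.1 h4⟩

theorem double {a ε : ℝ} (hε : 0 < ε) :
    ∀ᶠ x : ℝ in atTop, x ^ (a + ε / 2) + x ^ (a + ε / 2) ≤ x ^ (a + ε) := by
  filter_upwards [(tendsto_rpow_atTop (show 0 < ε / 2 by positivity)).eventually_ge_atTop 2,
    eventually_gt_atTop (0 : ℝ)] with x hx hx0
  have h1 : x ^ (a + ε) = x ^ (ε / 2) * x ^ (a + ε / 2) := by
    rw [← Real.rpow_add hx0]
    ring_nf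
  rw [h1]
  have h2 : 0 < x ^ (a + ε / 2) := Real.rpow_pos_of_pos hx0 _
  nlinarith

theorem limit_iff {η : ℝ} (h : IsEta η) {α : ℝ} (hk : kap η ≤ α) :
    Tendsto (fun x : ℝ => Real.log ((reach x).ncard : ℝ) / Real.log x) atTop (𝓝 η) ↔
      ∀ ε : ℝ, 0 < ε → ∀ᶠ x : ℝ in atTop, ((slow α x).ncard : ℝ) ≤ x ^ (η + ε) := by
  constructor
  · intro ht ε hε
    filter_upwards [pow_of_tendsto ht hε] with x hx
    refine le_trans ?_ hx
    have hsub : slow α x ⊆ reach x := fun n hn => ⟨hn.1, hn.2.1, hn.2.2.1⟩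
    exact_mod_cast Set.ncard_le_ncard hsub (finite_reach x)
  · intro hs
    refine tendsto_of_pow fun ε hε => ?_
    filter_upwards [high h hk (show 0 < ε / 2 by positivity), hs (ε / 2) (by positivity),
      double (a := η) hε, eventually_ge_atTop (1 : ℝ)] with x h1 h2 h3 h4
    constructor
    · refine le_trans (Real.rpow_le_rpow_of_exponent_le h4 (by linarith)) (h1.1.trans ?_)
      have hsub : within (fun _ => α) x ⊆ reach x :=
        fun n hn => ⟨hn.1, hn.2.1, hn.2.2.imp fun k hk => hk.1⟩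
      exact_mod_cast Set.ncard_le_ncard hsub (finite_reach x)
    · refine le_trans ?_ h3
      refine le_trans ?_ (add_le_add h1.2 h2)
      have h5 := (Set.ncard_le_ncard (reach_subset α x)
        ((finite_within _ x).union (finite_slow α x))).trans (Set.ncard_union_le _ _)
      exact_mod_cast h5

theorem diagonal {η : ℝ} (h : IsEta η) : ∃ g : ℝ → ℝ, Monotone g ∧ Tendsto g atTop atTop ∧
    Tendsto (fun x : ℝ => Real.log ((within g x).ncard : ℝ) / Real.log x) atTop (𝓝 η) := by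
  have h1 : ∀ m : ℕ, ∃ X : ℝ, ∀ x : ℝ, X ≤ x →
      ((within (fun _ => kap η + m) x).ncard : ℝ) ≤ x ^ (η + 1 / ((m : ℝ) + 1)) := by
    intro m
    have h2 := high h (show kap η ≤ kap η + m by simp) (show (0 : ℝ) < 1 / ((m : ℝ) + 1) by positivity)
    obtain ⟨X, hX⟩ := eventually_atTop.1 h2
    exact ⟨X, fun x hx => (hX x hx).2⟩
  choose X hX using h1
  -- a monotone unbounded majorant
  set Y : ℕ → ℝ := fun m => ∑ i ∈ Finset.range (m + 1), (|X i| + 1) with hY
  have hYm : Monotone Y := by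
    refine monotone_nat_of_le_succ fun m => ?_
    simp only [hY]
    rw [Finset.sum_range_succ _ (m + 1)]
    have := abs_nonneg (X (m + 1))
    linarith
  have hYX : ∀ m, X m ≤ Y m := by
    intro m
    simp only [hY]
    rw [Finset.sum_range_succ]
    have h3 : 0 ≤ ∑ i ∈ Finset.range m, (|X i| + 1) :=
      Finset.sum_nonneg fun i _ => by positivity
    have := le_abs_self (X m)
    linarith
  set c : ℝ → ℕ := fun x => ((Finset.range ⌊x⌋₊).filter fun m => Y m ≤ x).card with hc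
  have hcm : Monotone c := by
    intro x y hxy
    refine Finset.card_le_card ?_
    intro m hm
    rw [Finset.mem_filter, Finset.mem_range] at hm ⊢
    exact ⟨lt_of_lt_of_le hm.1 (Nat.floor_mono hxy), hm.2.trans hxy⟩
  have hct : ∀ M : ℕ, ∀ᶠ x : ℝ in atTop, M ≤ c x := by
    intro M
    filter_upwards [eventually_ge_atTop (Y M), eventually_ge_atTop ((M : ℝ) + 1)] with x hx hx2
    have h4 : Finset.range M ⊆ (Finset.range ⌊x⌋₊).filter fun m => Y m ≤ x := by
      intro m hm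
      rw [Finset.mem_range] at hm
      rw [Finset.mem_filter, Finset.mem_range]
      refine ⟨?_, (hYm hm.le).trans hx⟩
      have : M ≤ ⌊x⌋₊ := Nat.le_floor (by linarith)
      omega
    have := Finset.card_le_card h4
    rwa [Finset.card_range] at this
  have hcx : ∀ x : ℝ, 1 ≤ c x → Y (c x - 1) ≤ x := by
    intro x hx
    by_contra hlt
    have h5 : ((Finset.range ⌊x⌋₊).filter fun m => Y m ≤ x) ⊆ Finset.range (c x - 1) := by
      intro m hm
      rw [Finset.mem_filter] at hm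
      rw [Finset.mem_range]
      by_contra h6
      exact hlt ((hYm (not_lt.1 h6)).trans hm.2)
    have h7 := Finset.card_le_card h5
    rw [Finset.card_range] at h7
    change c x ≤ c x - 1 at h7
    omega
  refine ⟨fun x => kap η + ((c x - 1 : ℕ) : ℝ), ?_, ?_, ?_⟩
  · intro x y hxy
    have : c x - 1 ≤ c y - 1 := Nat.sub_le_sub_right (hcm hxy) 1
    have : ((c x - 1 : ℕ) : ℝ) ≤ ((c y - 1 : ℕ) : ℝ) := by exact_mod_cast this
    simpa using this
  · refine tendsto_atTop_add_const_left _ _ ?_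
    refine tendsto_natCast_atTop_atTop.comp ?_
    rw [tendsto_atTop]
    intro M
    filter_upwards [hct (M + 1)] with x hx
    omega
  · refine tendsto_of_pow fun ε hε => ?_
    obtain ⟨M, hM⟩ := exists_nat_one_div_lt hε
    filter_upwards [high h le_rfl hε, hct (M + 1), eventually_ge_atTop (1 : ℝ)] with x h1 h2 h3
    constructor
    · refine h1.1.trans ?_
      refine Nat.cast_le.2 (Set.ncard_le_ncard ?_ (finite_within _ x))
      rintro n ⟨h4, h5, k, h6, h7⟩
      refine ⟨h4, h5, k, h6, h7.trans ?_⟩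
      refine mul_le_mul_of_nonneg_right ?_ (Real.log_nonneg (by exact_mod_cast h4))
      simp
    · have h8 : within (fun y => kap η + ((c y - 1 : ℕ) : ℝ)) x ⊆
          within (fun _ => kap η + ((c x - 1 : ℕ) : ℝ)) x := by
        rintro n ⟨h4, h5, k, h6, h7⟩
        refine ⟨h4, h5, k, h6, h7.trans ?_⟩
        refine mul_le_mul_of_nonneg_right ?_ (Real.log_nonneg (by exact_mod_cast h4))
        have h9 : c (n : ℝ) - 1 ≤ c x - 1 := Nat.sub_le_sub_right (hcm h5) 1
        have : ((c (n : ℝ) - 1 : ℕ) : ℝ) ≤ ((c x - 1 : ℕ) : ℝ) := by exact_mod_cast h9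
        simpa using this
      have h10 : ((within (fun y => kap η + ((c y - 1 : ℕ) : ℝ)) x).ncard : ℝ) ≤
          ((within (fun _ => kap η + ((c x - 1 : ℕ) : ℝ)) x).ncard : ℝ) :=
        Nat.cast_le.2 (Set.ncard_le_ncard h8 (finite_within _ x))
      refine h10.trans ((hX (c x - 1) x ((hYX _).trans (hcx x (by omega)))).trans ?_)
      refine Real.rpow_le_rpow_of_exponent_le h3 ?_
      have h11 : (M : ℝ) ≤ ((c x - 1 : ℕ) : ℝ) := by exact_mod_cast (by omega : M ≤ c x - 1)
      have h12 : 1 / (((c x - 1 : ℕ) : ℝ) + 1) ≤ 1 / ((M : ℝ) + 1) := by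
        refine one_div_le_one_div_of_le (by positivity) (by linarith)
      linarith

/-- **The growth exponents of the numbers which reach `1` in logarithmic time.** There are
`η` with `0.6509 < η < 0.65095`, `2 ^ η = 1 + 5 ^ (η - 1)`, and
`κ = 1 / (log 2 - (1 - 2 ^ (-η)) log 5) > 1 / log 2`, such that, if `N(α, x)` is the number of the
integers `1 ≤ n ≤ x` which reach `1` within `α log n` steps of the `5x+1` map:
(1) `log N(α, x) / log x → η` for all `α ≥ κ`;
(2) `log N(α, x) / log x → e(α)` for `1 / log 2 < α ≤ κ`, and `0 < e(α) ≤ η`, `e(κ) = η`;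
(3) there is a monotone function `g`, `g(n) → ∞`, such that the integers which reach `1` within
`g(n) log n` steps still have the growth exponent `η`;
(4) for every `α ≥ κ`, Question 1 has the positive answer with the value `η`,
`log N₅(x) / log x → η`, if and only if for every `ε > 0` and all large `x` at most `x ^ (η + ε)` integers
`n ≤ x` reach `1`, but not within `α log n` steps. -/
theorem result :
    ∃ η κ : ℝ, 0.6509 < η ∧ η < 0.65095 ∧ (2 : ℝ) ^ η = 1 + 5 ^ (η - 1) ∧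
      κ = 1 / (Real.log 2 - (1 - (2 : ℝ) ^ (-η)) * Real.log 5) ∧ 1 / Real.log 2 < κ ∧
      (∀ α : ℝ, κ ≤ α →
        Tendsto (fun x : ℝ => Real.log ((within (fun _ => α) x).ncard : ℝ) / Real.log x)
          atTop (𝓝 η)) ∧
      (∀ α : ℝ, 1 / Real.log 2 < α → α ≤ κ → 0 < slopeExponent α ∧ slopeExponent α ≤ η ∧
        Tendsto (fun x : ℝ => Real.log ((within (fun _ => α) x).ncard : ℝ) / Real.log x)
          atTop (𝓝 (slopeExponent α))) ∧
      slopeExponent κ = η ∧
      (∃ g : ℝ → ℝ, Monotone g ∧ Tendsto g atTop atTop ∧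
        Tendsto (fun x : ℝ => Real.log ((within g x).ncard : ℝ) / Real.log x) atTop (𝓝 η)) ∧
      (∀ α : ℝ, κ ≤ α →
        (Tendsto (fun x : ℝ => Real.log ((reach x).ncard : ℝ) / Real.log x) atTop (𝓝 η) ↔
          ∀ ε : ℝ, 0 < ε → ∀ᶠ x : ℝ in atTop, ((slow α x).ncard : ℝ) ≤ x ^ (η + ε))) := by
  obtain ⟨η, h⟩ := DG.exists_eta5
  refine ⟨η, kap η, h.1, h.2.1, h.2.2, rfl, kap_gt h, fun α hα => tendsto_of_pow fun ε hε => high h hα hε,
    fun α h1 h2 => ⟨?_, ?_, tendsto_of_pow fun ε hε => low h h1 h2 hε⟩, ?_, diagonal h,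
    fun α hα => limit_iff h hα⟩
  · rw [exp_eq h1]
    exact ex_pos h h1 h2
  · rw [exp_eq h1]
    exact ex_le h h1 h2
  · rw [exp_eq (kap_gt h)]
    exact ex_kap h

end Pool.Agent.Results.MP_05966f_nt.ExponentWithinLogTime
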